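import Pool.Agent.H.MP_b0da28_lc.B

namespace Pool.Agent.Results.MP_b0da28_lc.Counter

open Pool.Agent.H.MP_b0da28_lc

theorem result :
    ∃ E : (ℕ → ℕ) → (ℕ → ℕ) → Prop, Equivalence E ∧
      IsClosed {p : (ℕ → ℕ) × (ℕ → ℕ) | E p.1 p.2} ∧
      (∃ g : (ℕ → ℕ) → (ℕ → ℕ), Measurable g ∧ ∀ x y, E x y ↔ g x = g y) ∧
      ¬ ∃ f : (ℕ → ℕ) → (ℕ → (ℕ → ℕ)), Continuous f ∧
        ∀ x y, E x y ↔ Set.range (f x) = Set.range (f y) :=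
  ⟨fun x y => phi x = phi y, ⟨fun _ => rfl, Eq.symm, Eq.trans⟩, closed_ker,
    ⟨phi, meas_phi, fun _ _ => Iff.rfl⟩, fun ⟨_, hf, h⟩ => no_red hf h⟩

end Pool.Agent.Results.MP_b0da28_lc.Counter
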